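import Pool.Agent.Q195.ConjLocus.Main

/-!
# The regular conjugate locus of a sub-Riemannian manifold need not be dense
-/

namespace Pool.Agent.Results.MP_f98bae_gt.RegularNotDense

open Q195.Conj

/-- There are a sub-Riemannian manifold (`ℝ⁴` with a rank three distribution) and a point `q` such
that the conjugate locus at `q` is non-empty and the regular conjugate locus is not dense in it. -/
theorem result : ∃ (S : SR 4 3) (q : Fin 4 → ℝ),
    (S.Conj q).Nonempty ∧ ¬ S.Conj q ⊆ closure (S.Regular q) :=
  ⟨Q195.Conj.S, 0, ⟨_, mem_conj one_ne_zero one_ne_zero⟩, not_dense⟩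

end Pool.Agent.Results.MP_f98bae_gt.RegularNotDense
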